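import Mathlib
import Pool.Agent.W943.Pm.P3
import Pool.Agent.TH483.Rank

/-!
Matrices which are sums of matrices in one variable each, sorted by a key: explicit points at which
the rank is at least the rank at a given point. (Finite index types, and field extensions.)
-/

set_option autoImplicit false

namespace Pool.Agent.H140.CW

open MvPolynomial

/-- the rank of a matrix is the rank over an extension field -/
theorem rank_map_eq {F K R C : Type*} [Field F] [Field K] [Fintype R] [Fintype C] (φ : F →+* K)
    (B : Matrix R C F) : (B.map φ).rank = B.rank := by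
  classical
  have hd : ∀ {r : ℕ} (e : Fin r → R) (f : Fin r → C),
      ((B.map φ).submatrix e f).det = φ ((B.submatrix e f).det) := by
    intro r e f
    rw [RingHom.map_det]
    rfl
  apply le_antisymm
  · obtain ⟨e, f, h⟩ := Pool.Agent.TH483.exists_minor (B.map φ)
    rw [hd] at h
    exact Pool.Agent.TH483.le_rank_of_minor B e f (fun h0 => h (by rw [h0, map_zero]))
  · obtain ⟨e, f, h⟩ := Pool.Agent.TH483.exists_minor B
    refine Pool.Agent.TH483.le_rank_of_minor (B.map φ) e f ?_
    rw [hd]
    intro h0
    exact h ((map_eq_zero φ).1 h0)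

theorem submersive_X (m : ℕ) :
    Pool.Agent.W943.Cut.Submersive (fun i : Fin m => (X i : MvPolynomial (Fin m) ℂ)) := by
  classical
  refine ⟨fun i l => if i = l then 1 else 0, fun i k => ?_⟩
  rw [Finset.sum_eq_single i]
  · dsimp only
    rw [if_pos rfl, one_mul, pderiv_X]
    by_cases h : i = k
    · subst h; simp
    · rw [if_neg h, Pi.single_eq_of_ne (Ne.symm h)]
  · intro l _ hl
    dsimp only
    rw [if_neg (Ne.symm hl), zero_mul]
  · intro h
    exact absurd (Finset.mem_univ _) h

theorem sorted_rank_fin {N N' m k w D R : ℕ} (key : Fin R → ℕ)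
    (A : Fin R → Matrix (Fin N) (Fin N') (MvPolynomial (Fin m) ℂ)) (a : Fin R → Fin m)
    (I : Fin R → Finset (Fin N)) (J : Fin R → Finset (Fin N'))
    (hA : ∀ t i j, A t i j ∈ supported ℂ ({a t} : Set (Fin m)))
    (hIJ : ∀ t i j, A t i j ≠ 0 → i ∈ I t ∧ j ∈ J t)
    (hk : ∀ v, (Finset.univ.filter fun t => a t = v).card ≤ k)
    (hw : ∀ (T : Finset (Fin R)) (c : ℕ), (∀ t ∈ T, key t ≤ c) → (∀ t ∉ T, c ≤ key t) →
      (T.biUnion I ∩ Tᶜ.biUnion I).card ≤ w ∧ (T.biUnion J ∩ Tᶜ.biUnion J).card ≤ w)
    (hδ : ∀ i j, ((∑ t, A t) i j).totalDegree ≤ 1) (hD : min N N' ≤ D) (q : Fin m → ℂ) :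
    ∃ p ∈ Pool.Agent.W943.Cut.points m (Pool.Agent.W943.Nis.sd ℂ w k) D,
      ((∑ t, A t).map (eval q)).rank ≤ ((∑ t, A t).map (eval (fun i => (p i : ℂ)))).rank := by
  classical
  have key_mono := Tuple.monotone_sort key
  set σ := Tuple.sort key with hσ
  have hph : Pool.Agent.W943.Pm.PathHidden k w (∑ t, A t) := by
    refine ⟨m, R, fun i => X i, a ∘ σ, A ∘ σ, submersive_X m, fun t i j => hA _ _ _, ?_, ?_, ?_⟩
    · intro v
      refine le_trans (le_of_eq ?_) (hk v)
      refine Finset.card_bij (fun t _ => σ t) ?_ ?_ ?_
      · intro t ht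
        simpa using ht
      · intro t _ t' _ h
        exact σ.injective h
      · intro t ht
        exact ⟨σ.symm t, by simpa using ht, by simp⟩
    · intro l
      set T : Finset (Fin R) := Finset.univ.filter fun t => t.val < l with hT
      have himg : ∀ (I : Fin R → Finset (Fin N)) (S : Finset (Fin R)),
          S.biUnion (fun s => I (σ s)) = (S.image σ).biUnion I := by
        intro I S
        rw [Finset.image_biUnion]
      have himg' : ∀ (I : Fin R → Finset (Fin N')) (S : Finset (Fin R)),
          S.biUnion (fun s => I (σ s)) = (S.image σ).biUnion I := by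
        intro I S
        rw [Finset.image_biUnion]
      have hcompl : Tᶜ.image σ = (T.image σ)ᶜ := by
        ext x
        simp only [Finset.mem_image, Finset.mem_compl]
        constructor
        · rintro ⟨y, hy, rfl⟩ ⟨z, hz, hzy⟩
          exact hy (σ.injective hzy ▸ hz)
        · intro h
          exact ⟨σ.symm x, fun h' => h ⟨_, h', by simp⟩, by simp⟩
      have hfin : (((T.image σ).biUnion I ∩ (T.image σ)ᶜ.biUnion I).card ≤ w ∧
          ((T.image σ).biUnion J ∩ (T.image σ)ᶜ.biUnion J).card ≤ w) := by
        by_cases hl : l = 0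
        · have hT0 : T = ∅ := by
            rw [hT, hl]; simp
          rw [hT0]
          simp
        by_cases hlR : R < l
        · have hT1 : T = Finset.univ := by
            rw [hT]
            ext t
            have := t.2
            simp
            omega
          have hT2 : T.image σ = Finset.univ := by
            rw [hT1]
            exact Finset.image_univ_of_surjective σ.surjective
          rw [hT2]
          simp
        by_cases hR : l = R
        · have hT1 : T = Finset.univ := by
            rw [hT]
            ext t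
            have := t.2
            simp
            omega
          have hT2 : T.image σ = Finset.univ := by
            rw [hT1]
            exact Finset.image_univ_of_surjective σ.surjective
          rw [hT2]
          simp
        have hlt : l - 1 < R := by omega
        refine hw (T.image σ) (key (σ ⟨l - 1, hlt⟩)) ?_ ?_
        · intro t ht
          obtain ⟨s, hs, rfl⟩ := Finset.mem_image.1 ht
          rw [hT, Finset.mem_filter] at hs
          exact key_mono (show s ≤ ⟨l - 1, hlt⟩ by
            rw [Fin.le_def]
            show s.val ≤ l - 1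
            omega)
        · intro t ht
          have hs : ¬ (σ.symm t).val < l := by
            intro h
            apply ht
            exact Finset.mem_image.2 ⟨σ.symm t, by rw [hT]; simpa using h, by simp⟩
          have := key_mono (show (⟨l - 1, hlt⟩ : Fin R) ≤ σ.symm t by
            rw [Fin.le_def]
            show l - 1 ≤ (σ.symm t).val
            omega)
          simpa using this
      refine Pool.Agent.W943.Pm.cut_of_support (A ∘ σ) (I ∘ σ) (J ∘ σ)
        (fun s i j h => hIJ _ _ _ h) T ?_ ?_
      · have h1 := himg I T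
        have h2 := himg I Tᶜ
        rw [hcompl] at h2
        show (T.biUnion (fun s => I (σ s)) ∩ Tᶜ.biUnion (fun s => I (σ s))).card ≤ w
        rw [h1, h2]
        exact hfin.1
      · have h1 := himg' J T
        have h2 := himg' J Tᶜ
        rw [hcompl] at h2
        show (T.biUnion (fun s => J (σ s)) ∩ Tᶜ.biUnion (fun s => J (σ s))).card ≤ w
        rw [h1, h2]
        exact hfin.2
    · have h1 : (∑ t, (A ∘ σ) t) = ∑ t, A t := Equiv.sum_comp σ A
      rw [h1]
      ext1 i j
      rw [Matrix.map_apply]
      have : (aeval (fun i : Fin m => (X i : MvPolynomial (Fin m) ℂ))) =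
          AlgHom.id ℂ (MvPolynomial (Fin m) ℂ) := by
        ext i; simp
      rw [this]
      rfl
  exact Pool.Agent.W943.Pm.path_rank hph hδ (by simpa using hD) q

/-- The statement for arbitrary finite index types. -/
theorem sorted_rank {ρ γ β : Type*} [Fintype ρ] [Fintype γ] [Fintype β] [DecidableEq ρ]
    [DecidableEq γ] [DecidableEq β] {m k w D : ℕ} (key : β → ℕ)
    (A : β → Matrix ρ γ (MvPolynomial (Fin m) ℂ)) (a : β → Fin m)
    (I : β → Finset ρ) (J : β → Finset γ)
    (hA : ∀ t i j, A t i j ∈ supported ℂ ({a t} : Set (Fin m)))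
    (hIJ : ∀ t i j, A t i j ≠ 0 → i ∈ I t ∧ j ∈ J t)
    (hk : ∀ v, (Finset.univ.filter fun t => a t = v).card ≤ k)
    (hw : ∀ (T : Finset β) (c : ℕ), (∀ t ∈ T, key t ≤ c) → (∀ t ∉ T, c ≤ key t) →
      (T.biUnion I ∩ Tᶜ.biUnion I).card ≤ w ∧ (T.biUnion J ∩ Tᶜ.biUnion J).card ≤ w)
    (hδ : ∀ i j, ((∑ t, A t) i j).totalDegree ≤ 1) (hD : Fintype.card γ ≤ D) (q : Fin m → ℂ) :
    ∃ p ∈ Pool.Agent.W943.Cut.points m (Pool.Agent.W943.Nis.sd ℂ w k) D,
      ((∑ t, A t).map (eval q)).rank ≤ ((∑ t, A t).map (eval (fun i => (p i : ℂ)))).rank := by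
  classical
  set eρ := Fintype.equivFin ρ with heρ
  set eγ := Fintype.equivFin γ with heγ
  set eβ := Fintype.equivFin β with heβ
  have hsum : (∑ t : Fin (Fintype.card β), ((A (eβ.symm t)).submatrix eρ.symm eγ.symm)) =
      (∑ t, A t).submatrix eρ.symm eγ.symm := by
    ext1 i j
    rw [Matrix.sum_apply, Matrix.submatrix_apply, Matrix.sum_apply]
    simp only [Matrix.submatrix_apply]
    exact Equiv.sum_comp eβ.symm (fun t => A t (eρ.symm i) (eγ.symm j))
  obtain ⟨p, hp, hr⟩ := sorted_rank_fin (N := Fintype.card ρ) (N' := Fintype.card γ) (m := m)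
    (k := k) (w := w) (D := D) (key := fun t => key (eβ.symm t))
    (A := fun t => (A (eβ.symm t)).submatrix eρ.symm eγ.symm) (a := fun t => a (eβ.symm t))
    (I := fun t => (I (eβ.symm t)).image eρ) (J := fun t => (J (eβ.symm t)).image eγ)
    (fun t i j => hA _ _ _)
    (fun t i j h => by
      have := hIJ _ _ _ h
      exact ⟨Finset.mem_image.2 ⟨_, this.1, by simp⟩, Finset.mem_image.2 ⟨_, this.2, by simp⟩⟩)
    (fun v => by
      refine le_trans (le_of_eq ?_) (hk v)
      refine Finset.card_bij (fun t _ => eβ.symm t) ?_ ?_ ?_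
      · intro t ht
        simpa using ht
      · intro t _ t' _ h
        exact eβ.symm.injective h
      · intro t ht
        exact ⟨eβ t, by simpa using ht, by simp⟩)
    (fun T c h1 h2 => by
      have hcompl : Tᶜ.image eβ.symm = (T.image eβ.symm)ᶜ := by
        ext x
        simp only [Finset.mem_image, Finset.mem_compl]
        constructor
        · rintro ⟨y, hy, rfl⟩ ⟨z, hz, hzy⟩
          exact hy (eβ.symm.injective hzy ▸ hz)
        · intro h
          exact ⟨eβ x, fun h' => h ⟨_, h', by simp⟩, by simp⟩
      have h3 := hw (T.image eβ.symm) c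
        (fun t ht => by
          obtain ⟨s, hs, rfl⟩ := Finset.mem_image.1 ht
          exact h1 s hs)
        (fun t ht => by
          have := h2 (eβ t) (fun h => ht (Finset.mem_image.2 ⟨_, h, by simp⟩))
          simpa using this)
      have himg : ∀ (S : Finset (Fin (Fintype.card β))),
          S.biUnion (fun t => (I (eβ.symm t)).image eρ) =
            ((S.image eβ.symm).biUnion I).image eρ := by
        intro S
        rw [Finset.image_biUnion, Finset.biUnion_image]
      have himg' : ∀ (S : Finset (Fin (Fintype.card β))),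
          S.biUnion (fun t => (J (eβ.symm t)).image eγ) =
            ((S.image eβ.symm).biUnion J).image eγ := by
        intro S
        rw [Finset.image_biUnion, Finset.biUnion_image]
      rw [himg T, himg Tᶜ, himg' T, himg' Tᶜ, hcompl,
        ← Finset.image_inter _ _ eρ.injective, ← Finset.image_inter _ _ eγ.injective,
        Finset.card_image_of_injective _ eρ.injective,
        Finset.card_image_of_injective _ eγ.injective]
      exact h3)
    (fun i j => by
      rw [hsum]
      exact hδ _ _)
    ((min_le_right _ _).trans hD) q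
  refine ⟨p, hp, ?_⟩
  rw [hsum] at hr
  have hsub : ∀ x : Fin m → ℂ, (((∑ t, A t).submatrix eρ.symm eγ.symm).map (eval x)).rank =
      ((∑ t, A t).map (eval x)).rank := by
    intro x
    have : ((∑ t, A t).submatrix eρ.symm eγ.symm).map (eval x) =
        ((∑ t, A t).map (eval x)).submatrix eρ.symm eγ.symm := rfl
    rw [this, Matrix.rank_submatrix]
  rw [hsub, hsub] at hr
  exact hr

end Pool.Agent.H140.CW
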