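import Mathlib
import Pool.Agent.H140.CW.Hit
import Pool.Agent.H789R5.RF.Rank
import Pool.Agent.TH483.Rigid

/-!
Rigidity matrices of graphs which have small cutwidth after the removal of few vertices.
-/

set_option autoImplicit false

namespace Pool.Agent.H140.CW

open MvPolynomial Pool.Agent.H283R2.DR Pool.Agent.H789R5

variable {n d : ℕ}

/-- The edges of `G` between vertices outside `S` which cross the cut before the position `t` in the
order `σ` of the vertices. -/
def cutEdges (G : SimpleGraph (Fin n)) (S : Finset (Fin n)) (σ : Equiv.Perm (Fin n)) (t : ℕ) :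
    Set (Sym2 (Fin n)) :=
  {e | e ∈ G.edgeSet ∧ ∃ u v, e = s(u, v) ∧ u ∉ S ∧ v ∉ S ∧ (σ u : ℕ) < t ∧ t ≤ (σ v : ℕ)}

/-- After the removal of at most `a` vertices, the graph `G` has cutwidth at most `w`. -/
def NearCutwidthLE (a w : ℕ) (G : SimpleGraph (Fin n)) : Prop :=
  ∃ (S : Finset (Fin n)) (σ : Equiv.Perm (Fin n)), S.card ≤ a ∧
    ∀ t : ℕ, (cutEdges G S σ t).ncard ≤ w

open Classical in
/-- the position, the vertices of `S` at the end -/
noncomputable def gpos (S : Finset (Fin n)) (σ : Equiv.Perm (Fin n)) (x : Fin n) : ℕ :=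
  if x ∈ S then n else (σ x : ℕ)

theorem gpos_out {S : Finset (Fin n)} {σ : Equiv.Perm (Fin n)} {x : Fin n} (h : x ∉ S) :
    gpos S σ x = (σ x : ℕ) := if_neg h

theorem gpos_in {S : Finset (Fin n)} {σ : Equiv.Perm (Fin n)} {x : Fin n} (h : x ∈ S) :
    gpos S σ x = n := if_pos h

theorem gpos_lt {S : Finset (Fin n)} {σ : Equiv.Perm (Fin n)} {x : Fin n} (h : gpos S σ x < n) :
    x ∉ S := fun h' => by rw [gpos_in h'] at h; exact lt_irrefl _ h

theorem gpos_le (S : Finset (Fin n)) (σ : Equiv.Perm (Fin n)) (x : Fin n) : gpos S σ x ≤ n := by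
  unfold gpos
  split_ifs
  · exact le_rfl
  · exact (σ x).2.le

/-- the blocks: a pair of adjacent vertices and a coordinate -/
abbrev Blk (d : ℕ) (G : SimpleGraph (Fin n)) : Type :=
  {x : (Fin n × Fin n) × Fin d // G.Adj x.1.1 x.1.2}

/-- the edge of a block -/
def bedge {G : SimpleGraph (Fin n)} (b : Blk d G) : G.edgeSet := ⟨s(b.1.1.1, b.1.1.2), b.2⟩

/-- the key of a block -/
noncomputable def bkey (S : Finset (Fin n)) (σ : Equiv.Perm (Fin n)) {G : SimpleGraph (Fin n)}
    (b : Blk d G) : ℕ := min (gpos S σ b.1.1.1) (gpos S σ b.1.1.2)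

open Classical in
/-- the value of a coordinate -/
noncomputable def val (S : Finset (Fin n)) (c : Fin n → Fin d → ℂ) (u : Fin n) (i : Fin d) :
    MvPolynomial (Fin (n * d)) ℂ :=
  if u ∈ S then C (c u i) else X (finProdFinEquiv (u, i))

open Classical in
/-- the matrix of a block -/
noncomputable def bmat (S : Finset (Fin n)) (c : Fin n → Fin d → ℂ) {G : SimpleGraph (Fin n)}
    (b : Blk d G) : Matrix G.edgeSet (Fin n × Fin d) (MvPolynomial (Fin (n * d)) ℂ) :=
  fun e x => if e = bedge b then
    (if x = (b.1.1.1, b.1.2) then val S c b.1.1.1 b.1.2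
      else if x = (b.1.1.2, b.1.2) then - val S c b.1.1.1 b.1.2 else 0) else 0

open Classical in
/-- the variable of a block -/
noncomputable def bvar (S : Finset (Fin n)) {G : SimpleGraph (Fin n)} (b : Blk d G) :
    Fin (n * d) :=
  if b.1.1.1 ∈ S ∧ b.1.1.2 ∉ S then finProdFinEquiv (b.1.1.2, b.1.2)
    else finProdFinEquiv (b.1.1.1, b.1.2)

theorem bmat_mem (S : Finset (Fin n)) (c : Fin n → Fin d → ℂ) {G : SimpleGraph (Fin n)}
    (b : Blk d G) (e : G.edgeSet) (x : Fin n × Fin d) :
    bmat S c b e x ∈ supported ℂ ({bvar S b} : Set (Fin (n * d))) := by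
  classical
  have hv : val S c b.1.1.1 b.1.2 ∈ supported ℂ ({bvar S b} : Set (Fin (n * d))) := by
    unfold val
    split_ifs with h
    · exact Subalgebra.algebraMap_mem _ _
    · rw [X_mem_supported]
      unfold bvar
      rw [if_neg (fun h' => h h'.1)]
      rfl
  unfold bmat
  split_ifs
  · exact hv
  · exact neg_mem hv
  · exact Subalgebra.zero_mem _
  · exact Subalgebra.zero_mem _

open Classical in
/-- the columns of a block -/
noncomputable def bcol {G : SimpleGraph (Fin n)} (b : Blk d G) : Finset (Fin n × Fin d) :=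
  {(b.1.1.1, b.1.2), (b.1.1.2, b.1.2)}

theorem bmat_supp (S : Finset (Fin n)) (c : Fin n → Fin d → ℂ) {G : SimpleGraph (Fin n)}
    (b : Blk d G) (e : G.edgeSet) (x : Fin n × Fin d) (h : bmat S c b e x ≠ 0) :
    e ∈ ({bedge b} : Finset G.edgeSet) ∧ x ∈ bcol b := by
  classical
  unfold bmat at h
  split_ifs at h with h1 h2 h3
  · exact ⟨Finset.mem_singleton.2 h1, by unfold bcol; simp [h2]⟩
  · exact ⟨Finset.mem_singleton.2 h1, by unfold bcol; simp [h3]⟩
  · exact absurd rfl h
  · exact absurd rfl h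

open Classical in
/-- the neighbours outside `S` of a vertex outside `S` -/
theorem nb_card {w : ℕ} {G : SimpleGraph (Fin n)} {S : Finset (Fin n)} {σ : Equiv.Perm (Fin n)}
    (hσ : ∀ t : ℕ, (cutEdges G S σ t).ncard ≤ w) {x : Fin n} (hx : x ∉ S) :
    (Finset.univ.filter fun v => G.Adj x v ∧ v ∉ S).card ≤ 2 * w := by
  have h1 : (Finset.univ.filter fun v => G.Adj x v ∧ v ∉ S) ⊆
      (Finset.univ.filter fun v => s(x, v) ∈ cutEdges G S σ (σ x)) ∪
      (Finset.univ.filter fun v => s(x, v) ∈ cutEdges G S σ (σ x + 1)) := by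
    intro v hv
    simp only [Finset.mem_filter, Finset.mem_univ, true_and] at hv
    simp only [Finset.mem_union, Finset.mem_filter, Finset.mem_univ, true_and]
    have hne : (σ x : ℕ) ≠ (σ v : ℕ) := by
      intro h
      exact hv.1.ne (σ.injective (Fin.ext h))
    rcases lt_or_gt_of_ne hne with h | h
    · right
      exact ⟨hv.1, x, v, rfl, hx, hv.2, by omega, by omega⟩
    · left
      exact ⟨hv.1, v, x, Sym2.eq_swap, hv.2, hx, h, le_rfl⟩
  have h2 : ∀ t : ℕ, (Finset.univ.filter fun v => s(x, v) ∈ cutEdges G S σ t).card ≤ w := by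
    intro t
    refine le_trans ?_ (hσ t)
    rw [← Set.ncard_coe_finset]
    refine Set.ncard_le_ncard_of_injOn (fun v => s(x, v)) ?_ ?_ (Set.toFinite _)
    · intro v hv
      simpa using hv
    · intro v _ v' _ h
      rcases Sym2.eq_iff.1 h with ⟨_, h5⟩ | ⟨h5, h6⟩
      · exact h5
      · rw [h6, h5]
  calc _ ≤ _ := Finset.card_le_card h1
    _ ≤ _ := Finset.card_union_le _ _
    _ ≤ w + w := Nat.add_le_add (h2 _) (h2 _)
    _ = 2 * w := by ring

open Classical in
theorem bvar_card {a w : ℕ} {G : SimpleGraph (Fin n)} {S : Finset (Fin n)}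
    {σ : Equiv.Perm (Fin n)} (hS : S.card ≤ a) (hσ : ∀ t : ℕ, (cutEdges G S σ t).ncard ≤ w)
    (v : Fin (n * d)) :
    (Finset.univ.filter fun b : Blk d G => bvar S b = v).card ≤ 2 * w + 2 * a := by
  obtain ⟨⟨x, j⟩, rfl⟩ := (finProdFinEquiv (m := n) (n := d)).surjective v
  set N1 : Finset (Fin n) := Finset.univ.filter fun y => G.Adj x y ∧ ¬ (x ∈ S ∧ y ∉ S) with hN1
  set N2 : Finset (Fin n) := Finset.univ.filter fun y => G.Adj x y ∧ (y ∈ S ∧ x ∉ S) with hN2
  have h0 : (Finset.univ.filter fun b : Blk d G => bvar S b = finProdFinEquiv (x, j)).card ≤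
      N1.card + N2.card := by
    have hsplit : (Finset.univ.filter fun b : Blk d G => bvar S b = finProdFinEquiv (x, j)) ⊆
        (Finset.univ.filter fun b : Blk d G => (b.1.1.1 ∈ S ∧ b.1.1.2 ∉ S) ∧
          (b.1.1.2, b.1.2) = (x, j)) ∪
        (Finset.univ.filter fun b : Blk d G => ¬ (b.1.1.1 ∈ S ∧ b.1.1.2 ∉ S) ∧
          (b.1.1.1, b.1.2) = (x, j)) := by
      intro b hb
      simp only [Finset.mem_filter, Finset.mem_univ, true_and] at hb
      simp only [Finset.mem_union, Finset.mem_filter, Finset.mem_univ, true_and]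
      unfold bvar at hb
      split_ifs at hb with h
      · left
        exact ⟨h, finProdFinEquiv.injective hb⟩
      · right
        exact ⟨h, finProdFinEquiv.injective hb⟩
    refine (Finset.card_le_card hsplit).trans ((Finset.card_union_le _ _).trans ?_)
    rw [add_comm]
    refine Nat.add_le_add ?_ ?_
    · refine Finset.card_le_card_of_injOn (fun b => b.1.1.2) ?_ ?_
      · intro b hb
        simp only [Finset.coe_filter, Finset.mem_univ, true_and, Set.mem_ofPred_eq,
          Prod.mk.injEq] at hb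
        simp only [hN1, Finset.coe_filter, Finset.mem_univ, true_and, Set.mem_ofPred_eq]
        obtain ⟨hb1, hb2, hb3⟩ := hb
        rw [← hb2]
        exact ⟨b.2, hb1⟩
      · intro b hb b' hb' h
        simp only [Finset.coe_filter, Finset.mem_univ, true_and, Set.mem_ofPred_eq,
          Prod.mk.injEq] at hb hb'
        apply Subtype.ext
        exact Prod.ext (Prod.ext (hb.2.1.trans hb'.2.1.symm) h) (hb.2.2.trans hb'.2.2.symm)
    · refine Finset.card_le_card_of_injOn (fun b => b.1.1.1) ?_ ?_
      · intro b hb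
        simp only [Finset.coe_filter, Finset.mem_univ, true_and, Set.mem_ofPred_eq,
          Prod.mk.injEq] at hb
        simp only [hN2, Finset.coe_filter, Finset.mem_univ, true_and, Set.mem_ofPred_eq]
        obtain ⟨hb1, hb2, hb3⟩ := hb
        rw [← hb2]
        exact ⟨b.2.symm, hb1⟩
      · intro b hb b' hb' h
        simp only [Finset.coe_filter, Finset.mem_univ, true_and, Set.mem_ofPred_eq,
          Prod.mk.injEq] at hb hb'
        apply Subtype.ext
        exact Prod.ext (Prod.ext h (hb.2.1.trans hb'.2.1.symm)) (hb.2.2.trans hb'.2.2.symm)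
  refine h0.trans ?_
  by_cases hx : x ∈ S
  · have h1 : N1 ⊆ S := by
      intro y hy
      simp only [hN1, Finset.mem_filter, Finset.mem_univ, true_and] at hy
      by_contra h
      exact hy.2 ⟨hx, h⟩
    have h2 : N2 = ∅ := by
      rw [hN2, Finset.filter_eq_empty_iff]
      intro y _ hy
      exact hy.2.2 hx
    rw [h2, Finset.card_empty]
    have := Finset.card_le_card h1
    omega
  · have h1 : N1 ⊆ S ∪ (Finset.univ.filter fun v => G.Adj x v ∧ v ∉ S) := by
      intro y hy
      simp only [hN1, Finset.mem_filter, Finset.mem_univ, true_and] at hy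
      simp only [Finset.mem_union, Finset.mem_filter, Finset.mem_univ, true_and]
      by_cases h : y ∈ S
      · exact Or.inl h
      · exact Or.inr ⟨hy.1, h⟩
    have h2 : N2 ⊆ S := by
      intro y hy
      simp only [hN2, Finset.mem_filter, Finset.mem_univ, true_and] at hy
      exact hy.2.1
    have h3 := (Finset.card_le_card h1).trans (Finset.card_union_le _ _)
    have h4 := nb_card hσ hx
    have h5 := Finset.card_le_card h2
    omega

open Classical in
theorem row_card {a w : ℕ} {G : SimpleGraph (Fin n)} {S : Finset (Fin n)}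
    {σ : Equiv.Perm (Fin n)} (hS : S.card ≤ a) (hσ : ∀ t : ℕ, (cutEdges G S σ t).ncard ≤ w)
    (T : Finset (Blk d G)) (c : ℕ) (h1 : ∀ t ∈ T, bkey S σ t ≤ c) (h2 : ∀ t ∉ T, c ≤ bkey S σ t) :
    (T.biUnion (fun b => ({bedge b} : Finset G.edgeSet)) ∩
      Tᶜ.biUnion (fun b => ({bedge b} : Finset G.edgeSet))).card ≤ w + (a + 1) * a := by
  set U : Finset (Fin n) := S ∪ Finset.univ.filter fun u => (σ u : ℕ) = c with hU
  have hUc : U.card ≤ a + 1 := by
    refine (Finset.card_union_le _ _).trans (Nat.add_le_add hS ?_)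
    rw [Finset.card_le_one]
    intro x hx y hy
    simp only [Finset.mem_filter, Finset.mem_univ, true_and] at hx hy
    exact σ.injective (Fin.ext (hx.trans hy.symm))
  have hsub : ((T.biUnion (fun b => ({bedge b} : Finset G.edgeSet)) ∩
      Tᶜ.biUnion (fun b => ({bedge b} : Finset G.edgeSet))).image Subtype.val) ⊆
      (Set.toFinite (cutEdges G S σ (c + 1))).toFinset ∪
        (U ×ˢ S).image fun p => s(p.1, p.2) := by
    intro e he
    simp only [Finset.mem_image, Finset.mem_inter, Finset.mem_biUnion, Finset.mem_singleton,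
      Finset.mem_compl] at he
    obtain ⟨e', ⟨⟨b, hb, hbe⟩, ⟨b', hb', hbe'⟩⟩, rfl⟩ := he
    have hk : bkey S σ b = bkey S σ b' := by
      have h3 : bedge b = bedge b' := hbe.symm.trans hbe'
      have h4 : s(b.1.1.1, b.1.1.2) = s(b'.1.1.1, b'.1.1.2) := congrArg Subtype.val h3
      unfold bkey
      rcases Sym2.eq_iff.1 h4 with ⟨h5, h6⟩ | ⟨h5, h6⟩
      · rw [h5, h6]
      · rw [h5, h6, min_comm]
    have hkc : bkey S σ b = c := le_antisymm (h1 b hb) (hk ▸ h2 b' hb')
    rw [hbe]
    -- an orientation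
    obtain ⟨u, v, huv, hadj, hu⟩ : ∃ u v, (bedge b : Sym2 (Fin n)) = s(u, v) ∧ G.Adj u v ∧
        gpos S σ u = c ∧ c ≤ gpos S σ v := by
      rcases le_total (gpos S σ b.1.1.1) (gpos S σ b.1.1.2) with h | h
      · have hm : bkey S σ b = gpos S σ b.1.1.1 := min_eq_left h
        exact ⟨_, _, rfl, b.2, by omega, by omega⟩
      · have hm : bkey S σ b = gpos S σ b.1.1.2 := min_eq_right h
        exact ⟨_, _, Sym2.eq_swap, b.2.symm, by omega, by omega⟩
    rw [huv]
    rw [Finset.mem_union, Set.Finite.mem_toFinset, Finset.mem_image]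
    by_cases hvS : v ∈ S
    · right
      refine ⟨(u, v), ?_, rfl⟩
      rw [Finset.mem_product]
      refine ⟨?_, hvS⟩
      rw [hU, Finset.mem_union, Finset.mem_filter]
      by_cases huS : u ∈ S
      · exact Or.inl huS
      · right
        rw [gpos_out huS] at hu
        exact ⟨Finset.mem_univ _, hu.1⟩
    · left
      rw [gpos_out hvS] at hu
      have huS : u ∉ S := by
        intro h
        rw [gpos_in h] at hu
        have := (σ v).2
        omega
      rw [gpos_out huS] at hu
      have hne : (σ u : ℕ) ≠ (σ v : ℕ) := by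
        intro h
        exact hadj.ne (σ.injective (Fin.ext h))
      exact ⟨hadj, u, v, rfl, huS, hvS, by omega, by omega⟩
  have hinj : (T.biUnion (fun b => ({bedge b} : Finset G.edgeSet)) ∩
      Tᶜ.biUnion (fun b => ({bedge b} : Finset G.edgeSet))).card =
      ((T.biUnion (fun b => ({bedge b} : Finset G.edgeSet)) ∩
      Tᶜ.biUnion (fun b => ({bedge b} : Finset G.edgeSet))).image Subtype.val).card :=
    (Finset.card_image_of_injective _ Subtype.val_injective).symm
  rw [hinj]
  refine (Finset.card_le_card hsub).trans ((Finset.card_union_le _ _).trans ?_)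
  refine Nat.add_le_add ?_ ?_
  · rw [← Set.ncard_eq_toFinset_card _ (Set.toFinite _)]
    exact hσ _
  · refine Finset.card_image_le.trans ?_
    rw [Finset.card_product]
    exact Nat.mul_le_mul hUc hS

open Classical in
theorem col_card {a w : ℕ} {G : SimpleGraph (Fin n)} {S : Finset (Fin n)}
    {σ : Equiv.Perm (Fin n)} (hS : S.card ≤ a) (hσ : ∀ t : ℕ, (cutEdges G S σ t).ncard ≤ w)
    (T : Finset (Blk d G)) (c : ℕ) (h1 : ∀ t ∈ T, bkey S σ t ≤ c) (h2 : ∀ t ∉ T, c ≤ bkey S σ t) :
    (T.biUnion (bcol (G := G)) ∩ Tᶜ.biUnion bcol).card ≤ (a + 1 + w) * d := by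
  set U : Finset (Fin n) := S ∪ Finset.univ.filter fun u => (σ u : ℕ) = c with hU
  have hUc : U.card ≤ a + 1 := by
    refine (Finset.card_union_le _ _).trans (Nat.add_le_add hS ?_)
    rw [Finset.card_le_one]
    intro x hx y hy
    simp only [Finset.mem_filter, Finset.mem_univ, true_and] at hx hy
    exact σ.injective (Fin.ext (hx.trans hy.symm))
  set W : Finset (Fin n) := Finset.univ.filter fun v => v ∉ S ∧ c < (σ v : ℕ) ∧ ∃ y, y ∉ S ∧
    G.Adj y v ∧ (σ y : ℕ) ≤ c with hW
  have hWc : W.card ≤ w := by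
    have hy : ∀ v : Fin n, ∃ y, v ∈ W → (y ∉ S ∧ G.Adj y v ∧ (σ y : ℕ) ≤ c) := by
      intro v
      by_cases hv : v ∈ W
      · simp only [hW, Finset.mem_filter, Finset.mem_univ, true_and] at hv
        obtain ⟨y, hy⟩ := hv.2.2
        exact ⟨y, fun _ => hy⟩
      · exact ⟨v, fun h => absurd h hv⟩
    choose y hy using hy
    refine le_trans ?_ (hσ (c + 1))
    rw [← Set.ncard_coe_finset]
    refine Set.ncard_le_ncard_of_injOn (fun v => s(y v, v)) ?_ ?_ (Set.toFinite _)
    · intro v hv
      have hv' := hv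
      simp only [hW, Finset.coe_filter, Finset.mem_univ, true_and, Set.mem_ofPred_eq] at hv'
      have h3 := hy v hv
      exact ⟨h3.2.1, y v, v, rfl, h3.1, hv'.1, by omega, by omega⟩
    · intro v hv v' hv' h
      have h3 := hy v hv
      have h3' := hy v' hv'
      have hv1 := hv
      have hv1' := hv'
      simp only [hW, Finset.coe_filter, Finset.mem_univ, true_and, Set.mem_ofPred_eq] at hv1 hv1'
      rcases Sym2.eq_iff.1 h with ⟨_, h5⟩ | ⟨h5, _⟩
      · exact h5
      · exfalso
        rw [h5] at h3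
        omega
  have hsub : T.biUnion (bcol (G := G)) ∩ Tᶜ.biUnion bcol ⊆ (U ∪ W) ×ˢ Finset.univ := by
    rintro ⟨v, i⟩ hv
    simp only [Finset.mem_inter, Finset.mem_biUnion, Finset.mem_compl] at hv
    obtain ⟨⟨b, hb, hvb⟩, ⟨b', hb', hvb'⟩⟩ := hv
    rw [Finset.mem_product]
    refine ⟨?_, Finset.mem_univ _⟩
    show v ∈ U ∪ W
    have hb2 : v = b.1.1.1 ∨ v = b.1.1.2 := by
      unfold bcol at hvb
      simp only [Finset.mem_insert, Finset.mem_singleton, Prod.mk.injEq] at hvb
      rcases hvb with h | h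
      · exact Or.inl h.1
      · exact Or.inr h.1
    have hb2' : v = b'.1.1.1 ∨ v = b'.1.1.2 := by
      unfold bcol at hvb'
      simp only [Finset.mem_insert, Finset.mem_singleton, Prod.mk.injEq] at hvb'
      rcases hvb' with h | h
      · exact Or.inl h.1
      · exact Or.inr h.1
    by_cases hvS : v ∈ S
    · exact Finset.mem_union_left _ (Finset.mem_union_left _ hvS)
    have hcv : c ≤ gpos S σ v := by
      refine (h2 b' hb').trans ?_
      unfold bkey
      rcases hb2' with h | h
      · rw [h]; exact min_le_left _ _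
      · rw [h]; exact min_le_right _ _
    rw [gpos_out hvS] at hcv
    by_cases hvc : (σ v : ℕ) = c
    · refine Finset.mem_union_left _ (Finset.mem_union_right _ ?_)
      simpa using hvc
    refine Finset.mem_union_right _ ?_
    have hlt : c < (σ v : ℕ) := by omega
    have hvn := (σ v).2
    have hkb := h1 b hb
    rw [hW, Finset.mem_filter]
    refine ⟨Finset.mem_univ _, hvS, hlt, ?_⟩
    unfold bkey at hkb
    rcases hb2 with h | h
    · have h3 : gpos S σ b.1.1.1 = (σ v : ℕ) := by rw [← h, gpos_out hvS]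
      rw [h3] at hkb
      have h4 : gpos S σ b.1.1.2 ≤ c := by
        rcases min_le_iff.1 hkb with h5 | h5
        · omega
        · exact h5
      have h5 : b.1.1.2 ∉ S := gpos_lt (σ := σ) (by omega)
      rw [gpos_out h5] at h4
      exact ⟨_, h5, by rw [h]; exact b.2.symm, h4⟩
    · have h3 : gpos S σ b.1.1.2 = (σ v : ℕ) := by rw [← h, gpos_out hvS]
      rw [h3] at hkb
      have h4 : gpos S σ b.1.1.1 ≤ c := by
        rcases min_le_iff.1 hkb with h5 | h5
        · exact h5
        · omega
      have h5 : b.1.1.1 ∉ S := gpos_lt (σ := σ) (by omega)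
      rw [gpos_out h5] at h4
      exact ⟨_, h5, by rw [h]; exact b.2, h4⟩
  refine (Finset.card_le_card hsub).trans ?_
  rw [Finset.card_product, Finset.card_univ, Fintype.card_fin]
  refine Nat.mul_le_mul_right _ ((Finset.card_union_le _ _).trans ?_)
  omega

end Pool.Agent.H140.CW
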