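import Mathlib
import Pool.Agent.H140.CW.Graph

/-!
The rank of the rigidity matrix at explicit placements, for graphs which have small cutwidth after
the removal of few vertices.
-/

set_option autoImplicit false

namespace Pool.Agent.H140.CW

open MvPolynomial Pool.Agent.H283R2.DR Pool.Agent.H789R5

variable {n d : ℕ}

open Classical in
/-- the placement with values `c` on `S` and `q` outside -/
noncomputable def ovr {K : Type*} (S : Finset (Fin n)) (c : Fin n → Fin d → K)
    (q : Fin (n * d) → K) : Fin n → Fin d → K :=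
  fun v i => if v ∈ S then c v i else q (finProdFinEquiv (v, i))

open Classical in
/-- the row of the edge `uv` over any ring -/
noncomputable def rowR {K : Type*} [Ring K] (p : Fin n → Fin d → K) (u v : Fin n)
    (c : Fin n × Fin d) : K :=
  if c.1 = u then p u c.2 - p v c.2 else if c.1 = v then p v c.2 - p u c.2 else 0

theorem sum_bmat (S : Finset (Fin n)) (c : Fin n → Fin d → ℂ) {G : SimpleGraph (Fin n)}
    [Fintype (Blk d G)] {u v : Fin n} (h : G.Adj u v) (x : Fin n × Fin d) :
    (∑ b : Blk d G, bmat S c b) ⟨s(u, v), h⟩ x = rowR (val S c) u v x := by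
  classical
  obtain ⟨y, i⟩ := x
  rw [Matrix.sum_apply]
  have hne : u ≠ v := h.ne
  set b1 : Blk d G := ⟨((u, v), i), h⟩ with hb1
  set b2 : Blk d G := ⟨((v, u), i), h.symm⟩ with hb2
  have hne12 : b1 ≠ b2 := by
    intro h'
    have := congrArg (fun b : Blk d G => b.1.1.1) h'
    exact hne this
  rw [Fintype.sum_eq_add b1 b2 hne12]
  · have e1 : (⟨s(u, v), h⟩ : G.edgeSet) = bedge b1 := rfl
    have e2 : (⟨s(u, v), h⟩ : G.edgeSet) = bedge b2 := Subtype.ext Sym2.eq_swap
    have f1 : bmat S c b1 ⟨s(u, v), h⟩ (y, i) =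
        if (y, i) = (u, i) then val S c u i else if (y, i) = (v, i) then - val S c u i else 0 := by
      unfold bmat
      rw [if_pos e1]
    have f2 : bmat S c b2 ⟨s(u, v), h⟩ (y, i) =
        if (y, i) = (v, i) then val S c v i else if (y, i) = (u, i) then - val S c v i else 0 := by
      unfold bmat
      rw [if_pos e2]
    rw [f1, f2]
    unfold rowR
    dsimp only
    by_cases hyu : y = u
    · subst hyu
      have hyv : (y, i) ≠ (v, i) := fun h' => hne (congrArg Prod.fst h')
      rw [if_pos rfl, if_neg hyv, if_pos rfl, if_pos rfl]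
      ring
    · have hyu' : (y, i) ≠ (u, i) := fun h' => hyu (congrArg Prod.fst h')
      rw [if_neg hyu', if_neg hyu]
      by_cases hyv : y = v
      · subst hyv
        rw [if_pos rfl, if_pos rfl, if_pos rfl]
        ring
      · have hyv' : (y, i) ≠ (v, i) := fun h' => hyv (congrArg Prod.fst h')
        rw [if_neg hyv', if_neg hyv', if_neg hyu', if_neg hyv, add_zero]
  · rintro ⟨⟨⟨u', v'⟩, j⟩, hb⟩ ⟨h1, h2⟩
    unfold bmat
    by_cases he : (⟨s(u, v), h⟩ : G.edgeSet) = bedge ⟨((u', v'), j), hb⟩
    · rw [if_pos he]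
      have he' : s(u, v) = s(u', v') := congrArg Subtype.val he
      have hji : j ≠ i := by
        rintro rfl
        rcases Sym2.eq_iff.1 he' with ⟨h5, h6⟩ | ⟨h5, h6⟩
        · subst h5; subst h6
          exact h1 rfl
        · subst h5; subst h6
          exact h2 rfl
      have h3 : ∀ z, ((y, i) : Fin n × Fin d) ≠ (z, j) := fun z h' =>
        hji (congrArg Prod.snd h').symm
      dsimp only
      rw [if_neg (h3 _), if_neg (h3 _)]
    · rw [if_neg he]

theorem val_deg (S : Finset (Fin n)) (c : Fin n → Fin d → ℂ) (u : Fin n) (i : Fin d) :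
    (val S c u i).totalDegree ≤ 1 := by
  classical
  unfold val
  split_ifs
  · rw [totalDegree_C]; exact Nat.zero_le _
  · exact (totalDegree_X _).le

theorem rowR_deg (S : Finset (Fin n)) (c : Fin n → Fin d → ℂ) (u v : Fin n)
    (x : Fin n × Fin d) : (rowR (val S c) u v x).totalDegree ≤ 1 := by
  classical
  unfold rowR
  split_ifs
  · exact (totalDegree_sub _ _).trans (max_le (val_deg _ _ _ _) (val_deg _ _ _ _))
  · exact (totalDegree_sub _ _).trans (max_le (val_deg _ _ _ _) (val_deg _ _ _ _))
  · rw [totalDegree_zero]; exact Nat.zero_le _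

/-- the values of the sum of the blocks -/
theorem map_sum_bmat (S : Finset (Fin n)) (c : Fin n → Fin d → ℝ) {G : SimpleGraph (Fin n)}
    [Fintype (Blk d G)] (q : Fin (n * d) → ℝ) :
    (∑ b : Blk d G, bmat S (fun v i => ((c v i : ℝ) : ℂ)) b).map (eval (fun x => ((q x : ℝ) : ℂ))) =
      (rigidityMatrix G (ovr S c q)).map (algebraMap ℝ ℂ) := by
  classical
  ext1 e x
  obtain ⟨e, he⟩ := e
  induction e using Sym2.ind with
  | _ u v =>
    rw [Matrix.map_apply, sum_bmat S _ he x, Matrix.map_apply]
    show _ = algebraMap ℝ ℂ (row (ovr S c q) u v x)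
    have hv : ∀ (y : Fin n) (i : Fin d), eval (fun x => ((q x : ℝ) : ℂ))
        (val S (fun v i => ((c v i : ℝ) : ℂ)) y i) = algebraMap ℝ ℂ (ovr S c q y i) := by
      intro y i
      unfold val ovr
      split_ifs
      · rw [eval_C]; rfl
      · rw [eval_X]; rfl
    unfold rowR row
    split_ifs
    · rw [map_sub, hv, hv, map_sub]
    · rw [map_sub, hv, hv, map_sub]
    · rw [map_zero, map_zero]

/-- the width -/
def wid (d a w : ℕ) : ℕ := w + (a + 1) * a + (a + 1 + w) * d

/-- the number of seeds -/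
noncomputable def seeds (d a w : ℕ) : ℕ :=
  Pool.Agent.W943.Nis.sd ℂ (wid d a w) (2 * w + 2 * a)

theorem exists_point {a w : ℕ} {G : SimpleGraph (Fin n)} {S : Finset (Fin n)}
    {σ : Equiv.Perm (Fin n)} (hS : S.card ≤ a) (hσ : ∀ t : ℕ, (cutEdges G S σ t).ncard ≤ w)
    (c : Fin n → Fin d → ℝ) (q : Fin (n * d) → ℝ) :
    ∃ p ∈ Pool.Agent.W943.Cut.points (n * d) (seeds d a w) (n * d),
      (rigidityMatrix G (ovr S c q)).rank ≤
        (rigidityMatrix G (ovr S c (fun x => (p x : ℝ)))).rank := by
  classical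
  have hI : ∀ (T : Finset (Blk d G)) (c : ℕ), (∀ t ∈ T, bkey S σ t ≤ c) →
      (∀ t ∉ T, c ≤ bkey S σ t) →
      (T.biUnion (fun b => ({bedge b} : Finset G.edgeSet)) ∩
        Tᶜ.biUnion (fun b => ({bedge b} : Finset G.edgeSet))).card ≤ wid d a w ∧
      (T.biUnion (bcol (G := G)) ∩ Tᶜ.biUnion bcol).card ≤ wid d a w := by
    intro T c h1 h2
    unfold wid
    have h3 := row_card hS hσ T c h1 h2
    have h4 := col_card hS hσ T c h1 h2
    constructor
    · exact h3.trans (Nat.le_add_right _ _)
    · exact h4.trans (Nat.le_add_left _ _)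
  obtain ⟨p, hp, hr⟩ := sorted_rank (m := n * d) (k := 2 * w + 2 * a) (w := wid d a w)
    (D := n * d) (bkey S σ) (bmat S (fun v i => ((c v i : ℝ) : ℂ))) (bvar S)
    (fun b => ({bedge b} : Finset G.edgeSet)) bcol (fun b e x => bmat_mem _ _ b e x)
    (fun b e x h => bmat_supp _ _ b e x h) (fun v => by
      have := bvar_card hS hσ v
      convert this using 2)
    (fun T c h1 h2 => by
      have := hI T c h1 h2
      convert this using 3)
    (fun e x => by
      obtain ⟨e, he⟩ := e
      induction e using Sym2.ind with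
      | _ u v =>
        rw [sum_bmat]
        exact rowR_deg _ _ _ _ _)
    (by rw [Fintype.card_prod, Fintype.card_fin, Fintype.card_fin])
    (fun x => ((q x : ℝ) : ℂ))
  refine ⟨p, hp, ?_⟩
  have h5 : (fun i => ((p i : ℤ) : ℂ)) = fun i => (((p i : ℝ) : ℝ) : ℂ) := by
    funext i
    push_cast
    rfl
  rw [h5, map_sum_bmat, map_sum_bmat S c (fun i => (p i : ℝ)), rank_map_eq, rank_map_eq] at hr
  exact hr

end Pool.Agent.H140.CW
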